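import Pool.Agent.L5helper12.PV.RH

/-! Subdivision of multiplicatively short intervals; total bounds. -/

set_option autoImplicit false

open Filter Topology Set MeasureTheory
open scoped ENNReal

namespace Pool.Agent.L5helper10.RTV

open Pool.Agent.L5helper10.TV Pool.Agent.L5helper12.PV

lemma sub_pt (κ v : ℝ) (hκ : 0 < κ) (m : ℕ) (hm : 1 ≤ m)
    (h1 : ∀ j n : ℕ, (v + κ / 2) - (j + 1) * κ ≠ Real.log n)
    (h2 : ∀ j n : ℕ, (v + κ / 2) - (j + 1) * (κ / m) ≠ Real.log n) :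
    fk κ v = ∑ j ∈ Finset.range m, Real.exp ((κ / 2 - (j + 1 / 2) * (κ / m)) / 2) *
      fk (κ / m) (v + κ / 2 - (j + 1 / 2) * (κ / m)) := by
  have hm0 : (0 : ℝ) < m := by exact_mod_cast hm
  have e1 := delta_sum κ (v + κ / 2) hκ.le h1 1
  have e2 := delta_sum (κ / m) (v + κ / 2) (by positivity) h2 m
  have e3 : (m : ℝ) * (κ / m) = κ := by field_simp
  rw [e3] at e2
  simp only [Finset.sum_range_one, Nat.cast_zero, zero_add, Nat.cast_one, one_mul] at e1
  rw [show v + κ / 2 - 1 / 2 * κ = v by ring] at e1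
  have e4 : Real.exp (v / 2) * fk κ v = ∑ j ∈ Finset.range m,
      Real.exp ((v + κ / 2 - (j + 1 / 2) * (κ / m)) / 2) * fk (κ / m) (v + κ / 2 - (j + 1 / 2) * (κ / m)) := by
    linarith
  have e5 : Real.exp (-(v / 2)) * Real.exp (v / 2) = 1 := by rw [← Real.exp_add]; simp
  calc fk κ v = Real.exp (-(v / 2)) * (Real.exp (v / 2) * fk κ v) := by rw [← mul_assoc, e5, one_mul]
    _ = _ := by
      rw [e4, Finset.mul_sum]
      apply Finset.sum_congr rfl
      intro j _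
      rw [← mul_assoc, ← Real.exp_add]
      congr 2
      ring

lemma sub_sq (κ v : ℝ) (hκ : 0 < κ) (m : ℕ) (hm : 1 ≤ m)
    (h1 : ∀ j n : ℕ, (v + κ / 2) - (j + 1) * κ ≠ Real.log n)
    (h2 : ∀ j n : ℕ, (v + κ / 2) - (j + 1) * (κ / m) ≠ Real.log n) :
    fk κ v ^ 2 ≤ (m * Real.exp (κ / 2)) * ∑ j ∈ Finset.range m,
      fk (κ / m) (v + κ / 2 - (j + 1 / 2) * (κ / m)) ^ 2 := by
  have hm0 : (0 : ℝ) < m := by exact_mod_cast hm
  rw [sub_pt κ v hκ m hm h1 h2]
  refine (sq_sum_le_card_mul_sum_sq).trans ?_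
  rw [Finset.card_range, mul_assoc]
  apply mul_le_mul_of_nonneg_left _ hm0.le
  rw [Finset.mul_sum]
  apply Finset.sum_le_sum
  intro j _
  rw [mul_pow]
  apply mul_le_mul_of_nonneg_right _ (sq_nonneg _)
  rw [← Real.exp_nat_mul]
  apply Real.exp_le_exp.2
  have : 0 ≤ ((j : ℝ) + 1 / 2) * (κ / m) := by positivity
  push_cast
  linarith

lemma ae_shift (κ s : ℝ) : ∀ᵐ v : ℝ, ∀ j n : ℕ, (v + s) - (j + 1) * κ ≠ Real.log n := by
  rw [ae_all_iff]
  intro j
  rw [ae_all_iff]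
  intro n
  have : ∀ᵐ v : ℝ, v ≠ Real.log n + (j + 1) * κ - s := by
    rw [ae_iff]
    simp
  filter_upwards [this] with v hv h
  exact hv (by linarith)

lemma sub_int (κ B : ℝ) (hκ : 0 < κ) (m : ℕ) (hm : 1 ≤ m) :
    ∫⁻ v in Iic B, ENNReal.ofReal (fk κ v ^ 2) ≤ ENNReal.ofReal (m ^ 2 * Real.exp (κ / 2)) *
      ∫⁻ v in Iic (B + κ / 2), ENNReal.ofReal (fk (κ / m) v ^ 2) := by
  have hm0 : (0 : ℝ) < m := by exact_mod_cast hm
  have h1 : ∫⁻ v in Iic B, ENNReal.ofReal (fk κ v ^ 2) ≤ ∫⁻ v in Iic B, ENNReal.ofReal (m * Real.exp (κ / 2)) *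
      ∑ j ∈ Finset.range m, ENNReal.ofReal (fk (κ / m) (v + (κ / 2 - (j + 1 / 2) * (κ / m))) ^ 2) := by
    apply lintegral_mono_ae
    filter_upwards [ae_restrict_of_ae (ae_shift κ (κ / 2)), ae_restrict_of_ae (ae_shift (κ / m) (κ / 2))] with v a1 a2
    rw [← ENNReal.ofReal_sum_of_nonneg (fun j _ => sq_nonneg _), ← ENNReal.ofReal_mul (by positivity)]
    apply ENNReal.ofReal_le_ofReal
    refine (sub_sq κ v hκ m hm a1 a2).trans (le_of_eq ?_)
    congr 1
    apply Finset.sum_congr rfl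
    intro j _
    rw [add_sub_assoc]
  refine h1.trans ?_
  rw [lintegral_const_mul' _ _ ENNReal.ofReal_ne_top, lintegral_finset_sum]
  · have h2 : ∀ j ∈ Finset.range m, ∫⁻ v in Iic B,
        ENNReal.ofReal (fk (κ / m) (v + (κ / 2 - (j + 1 / 2) * (κ / m))) ^ 2) ≤
        ∫⁻ v in Iic (B + κ / 2), ENNReal.ofReal (fk (κ / m) v ^ 2) := by
      intro j _
      rw [← lintegral_indicator measurableSet_Iic, ← lintegral_indicator measurableSet_Iic,
        ← lintegral_add_right_eq_self ((Iic (B + κ / 2)).indicator _) (κ / 2 - (j + 1 / 2) * (κ / m))]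
      apply lintegral_mono
      intro v
      have h0 : 0 ≤ ((j : ℝ) + 1 / 2) * (κ / m) := by positivity
      simp only [Set.indicator_apply, Set.mem_Iic]
      by_cases h : v ≤ B
      · rw [if_pos h, if_pos (by linarith)]
      · rw [if_neg h]; exact bot_le
    have h3 := Finset.sum_le_sum h2
    rw [Finset.sum_const, Finset.card_range, nsmul_eq_mul] at h3
    refine (mul_le_mul_right h3 _).trans (le_of_eq ?_)
    rw [← mul_assoc]
    congr 1
    rw [← ENNReal.ofReal_natCast, ← ENNReal.ofReal_mul (by positivity)]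
    congr 1
    ring
  · intro j _
    exact ENNReal.measurable_ofReal.comp (((fk_meas _).comp (measurable_id.add_const _)).pow_const 2)

lemma fk_Iic (κ B : ℝ) (hκ : 0 < κ) (hκ1 : κ ≤ 1) : IntegrableOn (fun v => fk κ v ^ 2) (Iic B) := by
  have := fk_wt_int κ 1 0 B B hκ hκ1 zero_le_one le_rfl le_rfl
  simpa using this

lemma upv (hU : UpperV) (a b ε : ℝ) (ha : 0 ≤ a) (hab : a < b) (hε : 0 < ε) : ∀ᶠ κ in 𝓝[>] (0 : ℝ),
    ∫ v in Ioc (a * La κ) (b * La κ), fk κ v ^ 2 ≤ (b - a + ε) * (κ * La κ ^ 2) := by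
  rcases le_or_gt 1 a with h1 | h1
  · filter_upwards [hU a b ε h1 hab hε, La_ge 0] with κ h2 h3
    rw [intervalIntegral.integral_of_le (by gcongr)] at h2
    exact h2
  · rcases le_or_gt b 1 with h2 | h2
    · filter_upwards [loc_ev a b ε ha hab.le h2 hε, La_ge 0, self_mem_nhdsWithin] with κ h3 h4 h5
      have h5 : 0 < κ := h5
      refine h3.trans ?_
      apply mul_le_mul_of_nonneg_right _ (by positivity)
      nlinarith
    · filter_upwards [loc_ev a 1 (ε / 2) ha h1.le le_rfl (by positivity), hU 1 b (ε / 2) le_rfl h2 (by positivity),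
        La_ge 0, self_mem_nhdsWithin, le_one_ev2] with κ h3 h4 h5 h6 h7
      have h6 : 0 < κ := h6
      rw [intervalIntegral.integral_of_le (by gcongr)] at h4
      have h8 : Ioc (a * La κ) (b * La κ) = Ioc (a * La κ) (1 * La κ) ∪ Ioc (1 * La κ) (b * La κ) :=
        (Ioc_union_Ioc_eq_Ioc (by gcongr) (by gcongr)).symm
      rw [h8, setIntegral_union (Ioc_disjoint_Ioc_of_le le_rfl) measurableSet_Ioc (fk2_ioc κ _ _ h6 h7) (fk2_ioc κ _ _ h6 h7)]
      nlinarith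

lemma tot (hU : UpperV) (c : ℝ) (hc : 1 < c) : ∃ C : ℝ, 0 ≤ C ∧ ∀ᶠ κ in 𝓝[>] (0 : ℝ),
    ∫⁻ v in Iic (c * La κ), ENNReal.ofReal (fk κ v ^ 2) ≤ ENNReal.ofReal (C * (κ * La κ ^ 2)) := by
  refine ⟨2000 + (c - 1 + 1), by linarith, ?_⟩
  filter_upwards [hU 1 c 1 le_rfl hc one_pos, La_ge 1, self_mem_nhdsWithin, le_one_ev2] with κ h1 h2 h3 h4
  have h3 : 0 < κ := h3
  have h5 := crude κ (La κ) h3 h4 (by linarith) le_rfl
  rw [← ofReal_integral_eq_lintegral_ofReal (fk_Iic κ _ h3 h4) (Eventually.of_forall fun v => sq_nonneg _)]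
  apply ENNReal.ofReal_le_ofReal
  have h0 : 0 ≤ La κ := by linarith
  have h6 : Iic (c * La κ) = Iic (La κ) ∪ Ioc (La κ) (c * La κ) := (Iic_union_Ioc_eq_Iic (by nlinarith)).symm
  have h7 : Disjoint (Iic (La κ)) (Ioc (La κ) (c * La κ)) := by
    rw [Set.disjoint_left]
    intro x hx hx2
    exact absurd hx (not_le.2 hx2.1)
  rw [h6, setIntegral_union h7 measurableSet_Ioc (fk_Iic κ _ h3 h4) (fk2_ioc κ _ _ h3 h4)]
  rw [one_mul, intervalIntegral.integral_of_le (by nlinarith)] at h1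
  have h8 : 500 * κ * (1 + La κ) ^ 2 ≤ 2000 * (κ * La κ ^ 2) := by
    have : (1 + La κ) ^ 2 ≤ 4 * La κ ^ 2 := by nlinarith
    nlinarith
  nlinarith

end Pool.Agent.L5helper10.RTV
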