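import Pool.Agent.L5helper10.TV.Rt

/-! The change of variables in the other direction. -/

set_option autoImplicit false

open Filter Topology Set MeasureTheory
open scoped ENNReal

namespace Pool.Agent.L5helper10.RTV

open Pool.Agent.L5helper10.TV

lemma sinh_le_exp (y : ℝ) (hy : 0 ≤ y) : Real.sinh y ≤ y * Real.exp y := by
  have h1 := Real.add_one_le_exp (-(2 * y))
  have h2 : Real.exp (-y) = Real.exp y * Real.exp (-(2 * y)) := by rw [← Real.exp_add]; congr 1; ring
  rw [Real.sinh_eq, h2]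
  have h3 := Real.exp_pos y
  nlinarith [mul_le_mul_of_nonneg_left h1 h3.le]

lemma cosh_one_lt : Real.cosh (2 / 2) < 2 * Real.sinh (2 / 2) := by
  rw [Real.cosh_eq, Real.sinh_eq]
  have h1 := Real.exp_one_gt_d9
  have h3 : Real.exp (-(1 : ℝ)) * Real.exp 1 = 1 := by rw [← Real.exp_add]; simp
  have h4 : Real.exp (-(1 : ℝ)) < 1 / 2 := by nlinarith [Real.exp_pos (-(1 : ℝ))]
  norm_num
  linarith

theorem cvr (T c : ℝ) (G : ℝ → ℝ) (hT : 1 < T) (hc0 : 0 < c) (hc : c * Real.exp (c / T / 2) < 1)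
    (hc2 : c / T < 2) (hGm : Measurable G) :
    ∫⁻ u in Ioi (Real.log T), ENNReal.ofReal (G u * (T ^ 2 * Real.exp (-(2 * u)))) *
      ∫⁻ x in Ioc (Real.exp u / T) (Real.exp u), ENNReal.ofReal ((psiH x (Real.exp u / T) - Real.exp u / T) ^ 2) ≤
    ∫⁻ κ in Ioo (c / T) 2, ENNReal.ofReal ((2 * Real.sinh (κ / 2))⁻¹ ^ 3) *
      ∫⁻ u in Ioi (Real.log T), ENNReal.ofReal (fk κ (u - ss T κ) ^ 2 * G u) := by
  have hT0 : 0 < T := by linarith
  have hqT : 0 < c / T := by positivity
  have h1 : ∫⁻ κ in Ioo (c / T) 2, ENNReal.ofReal ((2 * Real.sinh (κ / 2))⁻¹ ^ 3) *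
      ∫⁻ u in Ioi (Real.log T), ENNReal.ofReal (fk κ (u - ss T κ) ^ 2 * G u) =
      ∫⁻ κ in Ioo (c / T) 2, ∫⁻ u in Ioi (Real.log T), ENNReal.ofReal ((2 * Real.sinh (κ / 2))⁻¹ ^ 3) *
        ENNReal.ofReal (fk κ (u - ss T κ) ^ 2 * G u) := by
    apply setLIntegral_congr_fun measurableSet_Ioo
    intro κ _
    simp only
    rw [lintegral_const_mul' _ _ ENNReal.ofReal_ne_top]
  rw [h1, lintegral_lintegral_swap]
  · apply setLIntegral_mono' measurableSet_Ioi
    intro u hu
    set H := Real.exp u / T with hH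
    have hH1 : 1 < H := by
      rw [hH, one_lt_div hT0, ← Real.log_lt_iff_lt_exp hT0]; exact hu
    have h2 : ∫⁻ κ in Ioo (c / T) 2, ENNReal.ofReal ((2 * Real.sinh (κ / 2))⁻¹ ^ 3) *
        ENNReal.ofReal (fk κ (u - ss T κ) ^ 2 * G u) =
        ∫⁻ κ in Ioo (c / T) 2, ENNReal.ofReal (G u * (T ^ 2 * Real.exp (-(2 * u)))) *
      (ENNReal.ofReal (|(-(H * ((2 * Real.sinh (κ / 2))⁻¹) ^ 2))|) *
        ENNReal.ofReal ((psiH (xc H κ) H - H) ^ 2)) := by
      apply setLIntegral_congr_fun measurableSet_Ioo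
      intro κ hκ
      exact pt_id T κ u hT.le (hqT.trans hκ.1) (G u)
    rw [h2, lintegral_const_mul' _ _ ENNReal.ofReal_ne_top]
    refine mul_le_mul_right ?_ _
    rw [← lintegral_image_eq_lintegral_abs_deriv_mul (f := xc H)
      (f' := fun κ => -(H * ((2 * Real.sinh (κ / 2))⁻¹) ^ 2)) measurableSet_Ioo
      (fun κ hκ => (xc_deriv H κ (hqT.trans hκ.1)).hasDerivWithinAt) (xc_inj H (by linarith) _ _ hqT)
      (fun x => ENNReal.ofReal ((psiH x H - H) ^ 2))]
    apply lintegral_mono_set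
    intro x hx
    have hH0 : 0 < H := by linarith
    have hcont : ContinuousOn (xc H) (Icc (c / T) 2) := by
      intro κ hκ
      exact (xc_deriv H κ (hqT.trans_le hκ.1)).continuousAt.continuousWithinAt
    have hlow : xc H 2 < H := by
      unfold xc
      have hs : 0 < Real.sinh (2 / 2) := Real.sinh_pos_iff.2 (by norm_num)
      have := cosh_one_lt
      rw [div_mul_div_comm, div_lt_iff₀ (by positivity)]
      nlinarith
    have hhigh : Real.exp u < xc H (c / T) := by
      unfold xc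
      have hs : 0 < Real.sinh (c / T / 2) := Real.sinh_pos_iff.2 (by positivity)
      have h3 := sinh_le_exp (c / T / 2) (by positivity)
      have h4 : 1 ≤ Real.cosh (c / T / 2) := Real.one_le_cosh _
      have h5 : Real.exp u = H * T := by rw [hH]; field_simp
      have h6 : 2 * T * Real.sinh (c / T / 2) < Real.cosh (c / T / 2) := by
        have h7 : 2 * T * Real.sinh (c / T / 2) ≤ 2 * T * (c / T / 2 * Real.exp (c / T / 2)) :=
          mul_le_mul_of_nonneg_left h3 (by positivity)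
        have h8 : 2 * T * (c / T / 2 * Real.exp (c / T / 2)) = c * Real.exp (c / T / 2) := by field_simp
        linarith
      rw [h5, div_mul_div_comm, lt_div_iff₀ (by positivity)]
      nlinarith
    have hIVT := intermediate_value_Ioo' hc2.le hcont
    exact hIVT ⟨hlow.trans hx.1, hx.2.trans_lt hhigh⟩
  · apply Measurable.aemeasurable
    have m1 : Measurable (fun p : ℝ × ℝ => ENNReal.ofReal ((2 * Real.sinh (p.1 / 2))⁻¹ ^ 3)) := by
      apply ENNReal.measurable_ofReal.comp
      apply Measurable.pow_const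
      apply Measurable.inv
      exact ((Real.continuous_sinh.comp (continuous_id.div_const 2)).measurable.comp measurable_fst).const_mul _
    have m2 : Measurable (fun p : ℝ × ℝ => fk p.1 (p.2 - ss T p.1) ^ 2) :=
      (fk_meas2.comp (measurable_fst.prodMk (measurable_snd.sub ((ss_meas T).comp measurable_fst)))).pow_const 2
    have m3 : Measurable (fun p : ℝ × ℝ => fk p.1 (p.2 - ss T p.1) ^ 2 * G p.2) := m2.mul (hGm.comp measurable_snd)
    exact m1.mul (ENNReal.measurable_ofReal.comp m3)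

/-- the window is an interval -/
lemma inner_win (T κ A B : ℝ) :
    ∫⁻ u in Ioi (Real.log T), ENNReal.ofReal (fk κ (u - ss T κ) ^ 2 * (Ioc A B).indicator (fun _ => (1 : ℝ)) u) ≤
    ∫⁻ v in Ioc (A - ss T κ) (B - ss T κ), ENNReal.ofReal (fk κ v ^ 2) := by
  rw [← lintegral_indicator measurableSet_Ioi, ← lintegral_indicator measurableSet_Ioc,
    ← lintegral_sub_right_eq_self ((Ioc (A - ss T κ) (B - ss T κ)).indicator _) (ss T κ)]
  apply lintegral_mono
  intro u
  simp only [Set.indicator_apply, Set.mem_Ioi, Set.mem_Ioc]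
  by_cases h : A < u ∧ u ≤ B
  · have h2 : A - ss T κ < u - ss T κ ∧ u - ss T κ ≤ B - ss T κ := ⟨by linarith [h.1], by linarith [h.2]⟩
    simp only [if_pos h, if_pos h2, mul_one]
    split_ifs
    · exact le_rfl
    · exact bot_le
  · simp only [if_neg h, mul_zero, ENNReal.ofReal_zero, ite_self]
    exact bot_le

end Pool.Agent.L5helper10.RTV
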