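import Pool.Agent.L5helper10.RTV.A
import Pool.Agent.L5helper10.RTV.B

/-! The bounds in the three regions. -/

set_option autoImplicit false

open Filter Topology Set MeasureTheory
open scoped ENNReal

namespace Pool.Agent.L5helper10.RTV

open Pool.Agent.L5helper10.TV Pool.Agent.L5helper12.PV

lemma lint_inv (A : ℝ) (hA : 0 < A) : ∫⁻ κ in Ioi A, ENNReal.ofReal ((κ⁻¹) ^ 2) = ENNReal.ofReal (1 / A) := by
  have h1 : ∫⁻ κ in Ioi A, ENNReal.ofReal ((κ⁻¹) ^ 2) = ∫⁻ κ in Ioi A, ENNReal.ofReal (κ ^ (-2 : ℝ)) := by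
    apply setLIntegral_congr_fun measurableSet_Ioi
    intro κ hκ
    have hκ0 : 0 < κ := hA.trans hκ
    simp only
    rw [Real.rpow_neg hκ0.le, inv_pow]
    norm_num
  rw [h1, ← ofReal_integral_eq_lintegral_ofReal (integrableOn_Ioi_rpow_of_lt (by norm_num) hA)]
  · rw [integral_Ioi_rpow_of_lt (by norm_num) hA]
    congr 1
    rw [show (-2 : ℝ) + 1 = -1 by norm_num, Real.rpow_neg_one]
    ring
  · refine ae_restrict_of_forall_mem measurableSet_Ioi fun κ hκ => ?_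
    have hκ0 : 0 < κ := hA.trans hκ
    positivity

lemma wt_le (κ : ℝ) (hκ : 0 < κ) : (2 * Real.sinh (κ / 2))⁻¹ ^ 3 ≤ κ⁻¹ ^ 3 := by
  have h1 := sinh_half_ge κ hκ.le
  have h2 : (2 * Real.sinh (κ / 2))⁻¹ ≤ κ⁻¹ := inv_anti₀ hκ h1
  exact pow_le_pow_left₀ (by have := h1; have : 0 < 2 * Real.sinh (κ / 2) := by linarith
                             positivity) h2 3

lemma ss_ge (T κ : ℝ) (hT : 0 < T) (hκ : 0 < κ) : Real.log T - La κ ≤ ss T κ := by
  unfold ss La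
  rw [sub_neg_eq_add, ← Real.log_mul hT.ne' hκ.ne']
  apply Real.log_le_log (by positivity)
  have := sinh_half_ge κ hκ.le
  nlinarith

lemma ss_le (T κ : ℝ) (hT : 0 < T) (hκ : 0 < κ) (hκ1 : κ ≤ 1) : ss T κ ≤ Real.log T - La κ + 1 := by
  unfold ss La
  rw [sub_neg_eq_add, ← Real.log_mul hT.ne' hκ.ne']
  have h0 : 0 < Real.sinh (κ / 2) := Real.sinh_pos_iff.2 (by linarith)
  have h1 := sinh_half_le κ hκ.le hκ1
  have h2 : Real.log (2 * T * Real.sinh (κ / 2)) ≤ Real.log (2 * (T * κ)) := by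
    apply Real.log_le_log (by positivity)
    nlinarith
  have h3 : Real.log (2 * (T * κ)) = Real.log 2 + Real.log (T * κ) := Real.log_mul (by norm_num) (by positivity)
  have := Real.log_two_lt_d9
  linarith

lemma exists_k0 (P : ℝ → Prop) (h : ∀ᶠ κ in 𝓝[>] (0 : ℝ), P κ) : ∃ κ0 : ℝ, 0 < κ0 ∧ ∀ κ : ℝ, 0 < κ → κ < κ0 → P κ := by
  obtain ⟨κ0, h0, hs⟩ := mem_nhdsGT_iff_exists_Ioo_subset.1 h
  exact ⟨κ0, h0, fun κ h1 h2 => hs ⟨h1, h2⟩⟩

lemma reg1 (hU : UpperV) (a b c Q δ : ℝ) (ha : 1 ≤ a) (hab : a < b) (hc0 : 0 < c) (hc1 : c ≤ 1) (hQ : 1 ≤ Q)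
    (hδ : 0 < δ) (hδ1 : δ ≤ 1) : ∀ᶠ T in atTop, ∀ κ ∈ Ioc (c / T) (Q / T),
    ∫⁻ v in Ioc (a * Real.log T - ss T κ) (b * Real.log T - ss T κ), ENNReal.ofReal (fk κ v ^ 2) ≤
      ENNReal.ofReal ((b - a + 3 * δ) * (κ * (Real.log T - Real.log c) ^ 2)) := by
  obtain ⟨κ0, hκ0, h1⟩ := exists_k0 _ ((upv hU (a - δ) (b + δ) δ (by linarith) (by linarith) hδ).and
    ((La_ge ((1 - (a - 1) * Real.log c) / δ)).and ((La_ge ((b - 1) * Real.log Q / δ)).and ((La_ge 0).and le_one_ev2))))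
  filter_upwards [eventually_gt_atTop (Q / κ0), eventually_gt_atTop 1] with T hT1 hT2 κ hκ
  have hT0 : 0 < T := by linarith
  have hκp : 0 < κ := lt_trans (by positivity) hκ.1
  have hκlt : κ < κ0 := by
    refine hκ.2.trans_lt ?_
    rw [div_lt_iff₀ hκ0] at hT1
    rw [div_lt_iff₀ hT0]
    linarith
  obtain ⟨h2, h3, h4, h5, h6⟩ := h1 κ hκp hκlt
  rw [div_le_iff₀ hδ] at h3 h4
  have hLc : La κ ≤ Real.log T - Real.log c := by
    unfold La
    rw [← Real.log_div hT0.ne' hc0.ne', ← Real.log_inv]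
    apply Real.log_le_log (by positivity)
    rw [inv_le_comm₀ hκp (by positivity), inv_div]
    exact hκ.1.le
  have hLQ : Real.log T - Real.log Q ≤ La κ := by
    unfold La
    rw [← Real.log_div hT0.ne' (by linarith), ← Real.log_inv]
    apply Real.log_le_log (by positivity)
    rw [le_inv_comm₀ (by positivity) hκp, inv_div]
    exact hκ.2
  have k1 := ss_ge T κ hT0 hκp
  have k2 := ss_le T κ hT0 hκp h6
  have w1 : (a - δ) * La κ ≤ a * Real.log T - ss T κ := by nlinarith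
  have w2 : b * Real.log T - ss T κ ≤ (b + δ) * La κ := by nlinarith
  refine (lintegral_mono_set (Ioc_subset_Ioc w1 w2)).trans ?_
  rw [← ofReal_integral_eq_lintegral_ofReal (fk2_ioc κ _ _ hκp h6) (Eventually.of_forall fun v => sq_nonneg _)]
  apply ENNReal.ofReal_le_ofReal
  refine h2.trans ?_
  have w3 : La κ ^ 2 ≤ (Real.log T - Real.log c) ^ 2 := pow_le_pow_left₀ h5 hLc 2
  rw [show b + δ - (a - δ) + δ = b - a + 3 * δ by ring]
  apply mul_le_mul_of_nonneg_left _ (by linarith)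
  exact mul_le_mul_of_nonneg_left w3 hκp.le

lemma reg23 (hU : UpperV) (b : ℝ) (hb : 1 ≤ b) : ∃ C : ℝ, 0 ≤ C ∧ ∀ᶠ T : ℝ in atTop,
    (∀ κ ∈ Ioc (1 / T) (1 / T ^ (1 / 3 : ℝ)), ∫⁻ v in Iic (b * Real.log T - ss T κ), ENNReal.ofReal (fk κ v ^ 2) ≤
      ENNReal.ofReal (C * (κ * Real.log T ^ 2))) ∧
    (∀ κ ∈ Ioo (1 / T ^ (1 / 3 : ℝ)) 2, ∫⁻ v in Iic (b * Real.log T - ss T κ), ENNReal.ofReal (fk κ v ^ 2) ≤
      ENNReal.ofReal (6 * C * T ^ (1 / 3 : ℝ) * (κ ^ 2 * Real.log T ^ 2))) := by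
  obtain ⟨C, hC, hev⟩ := tot hU (3 * b + 3) (by linarith)
  obtain ⟨κ0, hκ0, h1⟩ := exists_k0 _ hev
  refine ⟨C, hC, ?_⟩
  have e1 : Tendsto (fun T : ℝ => T ^ (1 / 3 : ℝ)) atTop atTop := tendsto_rpow_atTop (by norm_num)
  filter_upwards [e1.eventually_gt_atTop (1 / κ0), e1.eventually_ge_atTop 2, eventually_gt_atTop 1,
    Real.tendsto_log_atTop.eventually_ge_atTop 1] with T hT1 hT2 hT3 hT4
  have hT0 : 0 < T := by linarith
  set p := T ^ (1 / 3 : ℝ) with hp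
  have hp0 : 0 < p := by linarith
  have hp3 : p ^ 3 = T := by
    rw [hp, ← Real.rpow_natCast, ← Real.rpow_mul hT0.le]; norm_num
  have hlp : Real.log p = Real.log T / 3 := by
    rw [hp, Real.log_rpow hT0]; ring
  have hk0 : 1 / p < κ0 := by
    rw [div_lt_iff₀ hκ0] at hT1
    rw [div_lt_iff₀ hp0]
    linarith
  -- facts on La
  have hLa1 : ∀ κ : ℝ, 0 < κ → κ ≤ 1 / p → Real.log T / 3 ≤ La κ := by
    intro κ h2 h3
    unfold La
    rw [← hlp, ← Real.log_inv]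
    apply Real.log_le_log hp0
    rw [le_inv_comm₀ hp0 h2, ← one_div]
    exact h3
  have hLa2 : ∀ κ : ℝ, 0 < κ → 1 / T ≤ κ → La κ ≤ Real.log T := by
    intro κ h2 h3
    unfold La
    rw [← Real.log_inv]
    apply Real.log_le_log (by positivity)
    rw [inv_le_comm₀ h2 hT0, ← one_div]
    exact h3
  have hLa3 : ∀ κ : ℝ, 0 < κ → κ ≤ 1 / p → 0 ≤ La κ := by
    intro κ h2 h3
    have := hLa1 κ h2 h3
    linarith
  constructor
  · intro κ hκ
    have hκp : 0 < κ := lt_trans (by positivity) hκ.1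
    have k1 := ss_ge T κ hT0 hκp
    have k2 := hLa1 κ hκp hκ.2
    have k3 := hLa2 κ hκp hκ.1.le
    have k4 := hLa3 κ hκp hκ.2
    have w : b * Real.log T - ss T κ ≤ (3 * b + 3) * La κ := by nlinarith
    refine (lintegral_mono_set (Iic_subset_Iic.2 w)).trans ((h1 κ hκp (hκ.2.trans_lt hk0)).trans ?_)
    apply ENNReal.ofReal_le_ofReal
    gcongr
  · intro κ hκ
    have hκp : 0 < κ := lt_trans (by positivity) hκ.1
    have hκ1p : 1 < κ * p := by
      have := hκ.1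
      rw [div_lt_iff₀ hp0] at this
      exact this
    set m : ℕ := ⌈κ * p⌉₊ with hm
    have hm1 : κ * p ≤ m := Nat.le_ceil _
    have hm2 : (m : ℝ) < κ * p + 1 := Nat.ceil_lt_add_one (by positivity)
    have hm0 : (0 : ℝ) < m := by linarith
    have hm3 : 1 ≤ m := by exact_mod_cast hm0
    have hκ' : κ / m ≤ 1 / p := by
      rw [div_le_div_iff₀ hm0 hp0]; linarith
    have hκ'0 : 0 < κ / m := by positivity
    have hκ'2 : 1 / T ≤ κ / m := by
      rw [div_le_div_iff₀ hT0 hm0, one_mul]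
      have : (m : ℝ) ≤ 2 * (κ * p) := by linarith
      have h3 : 2 * p ≤ T := by
        rw [← hp3]
        nlinarith [mul_le_mul hT2 hT2 (by norm_num) (by linarith)]
      nlinarith
    have k1 := ss_ge T κ hT0 hκp
    have k2 := hLa1 _ hκ'0 hκ'
    have k3 := hLa2 _ hκ'0 hκ'2
    have k4 := hLa3 _ hκ'0 hκ'
    have k5 : La κ ≤ Real.log T := by
      apply hLa2 κ hκp
      refine hκ'2.trans ?_
      rw [div_le_iff₀ hm0]
      have : (1 : ℝ) ≤ m := by exact_mod_cast hm3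
      nlinarith
    have w : b * Real.log T - ss T κ + κ / 2 ≤ (3 * b + 3) * La (κ / m) := by
      have := hκ.2
      nlinarith
    refine (sub_int κ _ hκp m hm3).trans ?_
    refine (mul_le_mul_right ((lintegral_mono_set (Iic_subset_Iic.2 w)).trans (h1 _ hκ'0 (hκ'.trans_lt hk0))) _).trans ?_
    rw [← ENNReal.ofReal_mul (by positivity)]
    apply ENNReal.ofReal_le_ofReal
    have hexp : Real.exp (κ / 2) ≤ 3 := by
      have := Real.exp_one_lt_d9
      exact (Real.exp_le_exp.2 (by linarith [hκ.2] : κ / 2 ≤ 1)).trans (by linarith)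
    have e5 : (m : ℝ) ^ 2 * Real.exp (κ / 2) * (C * (κ / m * La (κ / m) ^ 2)) =
        (Real.exp (κ / 2) * C) * ((m * κ) * La (κ / m) ^ 2) := by field_simp
    rw [e5]
    have e6 : (m : ℝ) * κ ≤ 2 * (κ ^ 2 * p) := by nlinarith
    calc (Real.exp (κ / 2) * C) * ((m * κ) * La (κ / m) ^ 2) ≤ (3 * C) * ((2 * (κ ^ 2 * p)) * Real.log T ^ 2) := by
          gcongr
      _ = _ := by ring

end Pool.Agent.L5helper10.RTV
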