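import Pool.Agent.L5helper10.RTV.C

/-! The upper bound for the mean squares over intervals of fixed length from the upper bound for the
multiplicatively short intervals. -/

set_option autoImplicit false

open Filter Topology Set MeasureTheory
open scoped ENNReal

namespace Pool.Agent.L5helper10.RTV

open Pool.Agent.L5helper10.TV Pool.Agent.L5helper12.PV

lemma log_ev (x D ε : ℝ) (hD : 0 < D) (hε : 0 < ε) : ∀ᶠ T : ℝ in atTop,
    (D + ε / 4) * (Real.log T - x) ^ 2 ≤ (D + ε / 2) * Real.log T ^ 2 := by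
  have h1 : Tendsto (fun T : ℝ => 1 - x / Real.log T) atTop (𝓝 (1 - 0)) :=
    tendsto_const_nhds.sub (Real.tendsto_log_atTop.const_div_atTop x)
  have h2 : Tendsto (fun T : ℝ => (D + ε / 4) * (1 - x / Real.log T) ^ 2) atTop (𝓝 ((D + ε / 4) * (1 - 0) ^ 2)) :=
    (h1.pow 2).const_mul _
  have h3 : (D + ε / 4) * (1 - 0 : ℝ) ^ 2 < D + ε / 2 := by norm_num; linarith
  filter_upwards [h2.eventually_le_const h3, Real.tendsto_log_atTop.eventually_ge_atTop 1] with T h4 h5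
  have h6 : 0 < Real.log T := by linarith
  have e1 : (D + ε / 4) * (Real.log T - x) ^ 2 = ((D + ε / 4) * (1 - x / Real.log T) ^ 2) * Real.log T ^ 2 := by
    field_simp
  rw [e1]
  exact mul_le_mul_of_nonneg_right h4 (by positivity)

theorem upperR_of_upperV (hU : UpperV) : ∀ a b ε : ℝ, 1 ≤ a → a < b → 0 < ε →
    ∀ᶠ T in atTop, ∫ α in a..b, RT T α ≤ b - a + ε := by
  intro a b ε ha hab hε
  set D := b - a with hD
  have hD0 : 0 < D := by rw [hD]; linarith
  set c := D / (D + ε / 8) with hc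
  have hc0 : 0 < c := by rw [hc]; positivity
  have hc1 : c < 1 := by rw [hc, div_lt_one (by positivity)]; linarith
  set δ := min 1 (c * ε / 24) with hδ
  have hδ0 : 0 < δ := by rw [hδ]; positivity
  have hδ1 : δ ≤ 1 := min_le_left _ _
  have hδ2 : δ ≤ c * ε / 24 := min_le_right _ _
  have hDc : (D + 3 * δ) / c ≤ D + ε / 4 := by
    rw [div_le_iff₀ hc0]
    have : D = c * (D + ε / 8) := by rw [hc]; field_simp
    nlinarith
  obtain ⟨C, hC, hev⟩ := reg23 hU b (by linarith)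
  set Q := max 1 (8 * C / ε) with hQ
  have hQ1 : 1 ≤ Q := le_max_left _ _
  have hQ2 : C / Q ≤ ε / 8 := by
    have h1 : 8 * C / ε ≤ Q := le_max_right _ _
    rw [div_le_iff₀ hε] at h1
    rw [div_le_iff₀ (by linarith)]
    linarith
  have e1 : Tendsto (fun T : ℝ => T ^ (1 / 3 : ℝ)) atTop atTop := tendsto_rpow_atTop (by norm_num)
  have e2 : ∀ᶠ T : ℝ in atTop, c * Real.exp (c / T / 2) < 1 := by
    have h1 : Tendsto (fun T : ℝ => c * Real.exp (c / T / 2)) atTop (𝓝 (c * Real.exp (0 / 2))) := by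
      apply Tendsto.const_mul
      exact (Real.continuous_exp.tendsto _).comp ((tendsto_id.const_div_atTop c).div_const 2)
    have h2 : c * Real.exp (0 / 2) < 1 := by simpa using hc1
    exact h1.eventually_lt_const h2
  filter_upwards [reg1 hU a b c Q δ ha hab hc0 hc1.le hQ1 hδ0 hδ1, hev, e2, log_ev (Real.log c) D ε hD0 hε,
    e1.eventually_ge_atTop (48 * C / ε), e1.eventually_ge_atTop Q, eventually_gt_atTop 1,
    Real.tendsto_log_atTop.eventually_ge_atTop 1] with T r1 r23 t1 t2 t3 t4 hT hl1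
  obtain ⟨r2, r3⟩ := r23
  have hT0 : 0 < T := by linarith
  set p := T ^ (1 / 3 : ℝ) with hp
  have hp1 : 1 ≤ p := hQ1.trans t4
  have hp0 : 0 < p := by linarith
  have hp3 : p ^ 3 = T := by
    rw [hp, ← Real.rpow_natCast, ← Real.rpow_mul hT0.le]; norm_num
  have hl : 0 < Real.log T := by linarith
  set ℓ := Real.log T with hℓ
  have hcT : c / T < 2 := by
    rw [div_lt_iff₀ hT0]; linarith
  set G : ℝ → ℝ := (Ioc (a * ℓ) (b * ℓ)).indicator (fun _ => (1 : ℝ)) with hG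
  have hGm : Measurable G := measurable_const.indicator measurableSet_Ioc
  have m1 := cvr T c G hT hc0 t1 hcT hGm
  rw [rhs_alpha T hT G] at m1
  -- the integrand
  set W : ℝ → ℝ≥0∞ := fun κ => ENNReal.ofReal ((2 * Real.sinh (κ / 2))⁻¹ ^ 3) *
      ∫⁻ u in Ioi (Real.log T), ENNReal.ofReal (fk κ (u - ss T κ) ^ 2 * G u) with hW
  have hsub : Ioo (c / T) 2 ⊆ Ioc (c / T) (Q / T) ∪ (Ioc (Q / T) (1 / p) ∪ Ioo (1 / p) 2) := by
    intro κ hκ
    by_cases h1 : κ ≤ Q / T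
    · exact Or.inl ⟨hκ.1, h1⟩
    · by_cases h2 : κ ≤ 1 / p
      · exact Or.inr (Or.inl ⟨not_le.1 h1, h2⟩)
      · exact Or.inr (Or.inr ⟨not_le.1 h2, hκ.2⟩)
  have m2 : ∫⁻ κ in Ioo (c / T) 2, W κ ≤ (∫⁻ κ in Ioc (c / T) (Q / T), W κ) +
      ((∫⁻ κ in Ioc (Q / T) (1 / p), W κ) + (∫⁻ κ in Ioo (1 / p) 2, W κ)) := by
    refine (lintegral_mono_set hsub).trans ((lintegral_union_le _ _ _).trans ?_)
    exact add_le_add le_rfl (lintegral_union_le _ _ _)
  have hin : ∀ κ : ℝ, 0 < κ → W κ ≤ ENNReal.ofReal (κ⁻¹ ^ 3) *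
      ∫⁻ v in Ioc (a * ℓ - ss T κ) (b * ℓ - ss T κ), ENNReal.ofReal (fk κ v ^ 2) := by
    intro κ hκ
    exact mul_le_mul' (ENNReal.ofReal_le_ofReal (wt_le κ hκ)) (inner_win T κ _ _)
  have hin2 : ∀ κ : ℝ, 0 < κ → W κ ≤ ENNReal.ofReal (κ⁻¹ ^ 3) *
      ∫⁻ v in Iic (b * ℓ - ss T κ), ENNReal.ofReal (fk κ v ^ 2) := by
    intro κ hκ
    exact (hin κ hκ).trans (mul_le_mul' le_rfl (lintegral_mono_set Ioc_subset_Iic_self))
  -- region 1
  have R1 : ∫⁻ κ in Ioc (c / T) (Q / T), W κ ≤ ENNReal.ofReal (T * ((D + ε / 4) * (ℓ - Real.log c) ^ 2)) := by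
    have h1 : ∫⁻ κ in Ioc (c / T) (Q / T), W κ ≤ ∫⁻ κ in Ioc (c / T) (Q / T),
        ENNReal.ofReal (κ⁻¹ ^ 2) * ENNReal.ofReal ((D + 3 * δ) * (ℓ - Real.log c) ^ 2) := by
      apply setLIntegral_mono' measurableSet_Ioc
      intro κ hκ
      have hκ0 : 0 < κ := lt_trans (by positivity) hκ.1
      refine (hin κ hκ0).trans ((mul_le_mul' le_rfl (r1 κ hκ)).trans (le_of_eq ?_))
      rw [← hD, ← ENNReal.ofReal_mul (by positivity), ← ENNReal.ofReal_mul (by positivity)]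
      congr 1
      field_simp
    refine h1.trans ?_
    rw [lintegral_mul_const' _ _ ENNReal.ofReal_ne_top]
    refine (mul_le_mul' (lintegral_mono_set Ioc_subset_Ioi_self) le_rfl).trans ?_
    rw [lint_inv _ (by positivity), ← ENNReal.ofReal_mul (by positivity)]
    apply ENNReal.ofReal_le_ofReal
    have : 1 / (c / T) * ((D + 3 * δ) * (ℓ - Real.log c) ^ 2) = T * ((D + 3 * δ) / c * (ℓ - Real.log c) ^ 2) := by
      field_simp
    rw [this]
    gcongr
  have R2 : ∫⁻ κ in Ioc (Q / T) (1 / p), W κ ≤ ENNReal.ofReal (T * (ε / 8 * ℓ ^ 2)) := by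
    have h1 : ∫⁻ κ in Ioc (Q / T) (1 / p), W κ ≤ ∫⁻ κ in Ioc (Q / T) (1 / p),
        ENNReal.ofReal (κ⁻¹ ^ 2) * ENNReal.ofReal (C * ℓ ^ 2) := by
      apply setLIntegral_mono' measurableSet_Ioc
      intro κ hκ
      have hκ1 : 1 / T < κ := lt_of_le_of_lt (by gcongr) hκ.1
      have hκ0 : 0 < κ := lt_trans (by positivity) hκ1
      refine (hin2 κ hκ0).trans ((mul_le_mul' le_rfl (r2 κ ⟨hκ1, hκ.2⟩)).trans (le_of_eq ?_))
      rw [← ENNReal.ofReal_mul (by positivity), ← ENNReal.ofReal_mul (by positivity)]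
      congr 1
      field_simp
    refine h1.trans ?_
    rw [lintegral_mul_const' _ _ ENNReal.ofReal_ne_top]
    refine (mul_le_mul' (lintegral_mono_set Ioc_subset_Ioi_self) le_rfl).trans ?_
    have hQ0 : 0 < Q := by linarith
    rw [lint_inv _ (by positivity), ← ENNReal.ofReal_mul (by positivity)]
    apply ENNReal.ofReal_le_ofReal
    have : 1 / (Q / T) * (C * ℓ ^ 2) = T * (C / Q * ℓ ^ 2) := by field_simp
    rw [this]
    gcongr
  have R3 : ∫⁻ κ in Ioo (1 / p) 2, W κ ≤ ENNReal.ofReal (T * (ε / 4 * ℓ ^ 2)) := by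
    have h1 : ∫⁻ κ in Ioo (1 / p) 2, W κ ≤ ∫⁻ κ in Ioo (1 / p) 2, ENNReal.ofReal (6 * C * p ^ 2 * ℓ ^ 2) := by
      apply setLIntegral_mono' measurableSet_Ioo
      intro κ hκ
      have hκ0 : 0 < κ := lt_trans (by positivity) hκ.1
      refine (hin2 κ hκ0).trans ((mul_le_mul' le_rfl (r3 κ hκ)).trans ?_)
      rw [← ENNReal.ofReal_mul (by positivity)]
      apply ENNReal.ofReal_le_ofReal
      have h2 : κ⁻¹ ≤ p := by
        rw [inv_le_comm₀ hκ0 hp0, ← one_div]; exact hκ.1.le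
      have h3 : κ⁻¹ ^ 3 * (6 * C * p * (κ ^ 2 * ℓ ^ 2)) = 6 * C * (p * κ⁻¹) * ℓ ^ 2 := by field_simp
      rw [h3, pow_two p]
      gcongr
    refine h1.trans ?_
    rw [setLIntegral_const, Real.volume_Ioo, ← ENNReal.ofReal_mul (by positivity)]
    apply ENNReal.ofReal_le_ofReal
    have h4 : (2 - 1 / p) ≤ 2 := by
      have : 0 < 1 / p := by positivity
      linarith
    have h5 : 6 * C * p ^ 2 * ℓ ^ 2 * (2 - 1 / p) ≤ 6 * C * p ^ 2 * ℓ ^ 2 * 2 :=
      mul_le_mul_of_nonneg_left h4 (by positivity)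
    rw [div_le_iff₀ hε] at t3
    have h6 : 12 * C * p ^ 2 ≤ T * (ε / 4) := by
      rw [← hp3]
      have := mul_le_mul_of_nonneg_right t3 (by positivity : 0 ≤ p ^ 2 / 4)
      nlinarith
    nlinarith [mul_le_mul_of_nonneg_right h6 (by positivity : 0 ≤ ℓ ^ 2)]
  have m3 : ENNReal.ofReal (T * ℓ ^ 2) * ∫⁻ α in Ioi (1 : ℝ), ENNReal.ofReal (G (α * ℓ) * RT T α) ≤
      ENNReal.ofReal (T * ℓ ^ 2) * ENNReal.ofReal (D + ε) := by
    refine m1.trans (m2.trans ((add_le_add R1 (add_le_add R2 R3)).trans ?_))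
    rw [← ENNReal.ofReal_add (by positivity) (by positivity), ← ENNReal.ofReal_add (by positivity) (by positivity),
      ← ENNReal.ofReal_mul (by positivity)]
    apply ENNReal.ofReal_le_ofReal
    have h1 := mul_le_mul_of_nonneg_left t2 hT0.le
    have h2 : 0 ≤ T * ℓ ^ 2 := by positivity
    nlinarith
  have m4 : ∫⁻ α in Ioi (1 : ℝ), ENNReal.ofReal (G (α * ℓ) * RT T α) ≤ ENNReal.ofReal (D + ε) := by
    have h1 : ENNReal.ofReal (T * ℓ ^ 2) ≠ 0 := by
      rw [Ne, ENNReal.ofReal_eq_zero, not_le]; positivity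
    exact (ENNReal.mul_le_mul_iff_right h1 ENNReal.ofReal_ne_top).1 m3
  have m5 : ∫⁻ α in Ioc a b, ENNReal.ofReal (RT T α) ≤ ∫⁻ α in Ioi (1 : ℝ), ENNReal.ofReal (G (α * ℓ) * RT T α) := by
    rw [← lintegral_indicator measurableSet_Ioc, ← lintegral_indicator measurableSet_Ioi]
    apply lintegral_mono
    intro α
    simp only [Set.indicator_apply, Set.mem_Ioc, Set.mem_Ioi, hG]
    by_cases h : a < α ∧ α ≤ b
    · have h2 : a * ℓ < α * ℓ ∧ α * ℓ ≤ b * ℓ := ⟨mul_lt_mul_of_pos_right h.1 hl, mul_le_mul_of_nonneg_right h.2 hl.le⟩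
      have h3 : 1 < α := by linarith [h.1]
      simp only [if_pos h, if_pos h2, if_pos h3, one_mul, le_refl]
    · simp only [if_neg h]
      exact bot_le
  rw [intervalIntegral.integral_of_le hab.le, integral_eq_lintegral_of_nonneg_ae]
  · exact ENNReal.toReal_le_of_le_ofReal (by positivity) (m5.trans m4)
  · refine ae_restrict_of_forall_mem measurableSet_Ioc fun α hα => ?_
    exact RT_nonneg T α hT (by linarith [hα.1])
  · exact RT_meas T hT a b (by linarith)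

end Pool.Agent.L5helper10.RTV
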